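import Pool.Agent.Helper72.UGB.Defs
import Pool.Agent.Helper33.MRB.B05

/-!
# UGU-5: choice of a residue class, uniformly in the modulus

As `UGB.exists_class`, but only the `φ(W)` coprime classes are counted (the others contain no prime of `(P, 2P]` if `W ≤ P`), so the
chosen class has at least `c (W / φ(W)) (P / W) / log P` elements.
-/

set_option autoImplicit false

namespace UGB

open Finset MRP

theorem coprime_mod_of_dyP {W P q : ℕ} (hW : 0 < W) (hWP : W ≤ P) (hq : q ∈ dyP P) : W.Coprime (q % W) := by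
  have h1 := Finset.mem_filter.1 hq
  have h2 := Finset.mem_Ioc.1 h1.1
  have h3 : Nat.Coprime q W := (Nat.Prime.coprime_iff_not_dvd h1.2).2
    (Nat.not_dvd_of_pos_of_lt hW (by omega))
  have h4 : Nat.gcd (q % W) W = 1 := by
    rw [← Nat.gcd_rec]
    exact h3.symm
  exact (Nat.coprime_comm.1 h4)

/-- A coprime class with few exceptional primes and many primes. -/
theorem exists_classU (W : ℕ) (hW : 0 < W) (P : ℕ) (hP : W ≤ P) (e : ℕ → ℝ) (he : ∀ q, 0 ≤ e q)
    (δ : ℝ) (hδ : 0 < δ) (h : ∑ q ∈ dyP P, e q ≤ δ * (dyP P).card) :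
    ∃ r < W, W.Coprime r ∧ ((dyP P).card : ℝ) ≤ 2 * W.totient * (AP P W r).card ∧
      ∑ q ∈ AP P W r, e q ≤ 2 * δ * (AP P W r).card := by
  classical
  by_contra hcon
  push Not at hcon
  set R : Finset ℕ := (range W).filter (fun r => W.Coprime r) with hR
  have hRcard : R.card = W.totient := (Nat.totient_eq_card_coprime W).symm
  have hn : (0 : ℝ) < ((dyP P).card : ℝ) := by
    exact_mod_cast MRB.one_le_card_dyP P (by omega)
  have hmap : ∀ q ∈ dyP P, q % W ∈ R := fun q hq =>
    Finset.mem_filter.2 ⟨Finset.mem_range.2 (Nat.mod_lt _ hW), coprime_mod_of_dyP hW hP hq⟩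
  have hcard : ((dyP P).card : ℝ) = ∑ r ∈ R, ((AP P W r).card : ℝ) := by
    have := Finset.card_eq_sum_card_fiberwise hmap
    rw [this]
    push_cast
    rfl
  have hsum : ∑ q ∈ dyP P, e q = ∑ r ∈ R, ∑ q ∈ AP P W r, e q :=
    (Finset.sum_fiberwise_of_maps_to hmap e).symm
  have hWR : (0 : ℝ) < W.totient := by exact_mod_cast Nat.totient_pos.2 hW
  -- each class satisfies `2 δ |AP| ≤ ∑ e + δ |dyP| / φ(W)`
  have key : ∀ r ∈ R, 2 * δ * ((AP P W r).card : ℝ) ≤
      ∑ q ∈ AP P W r, e q + δ * ((dyP P).card : ℝ) / W.totient := by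
    intro r hr
    have hr' := Finset.mem_range.1 (Finset.mem_filter.1 hr).1
    have hs : 0 ≤ ∑ q ∈ AP P W r, e q := Finset.sum_nonneg fun q _ => he q
    by_cases hc : ((dyP P).card : ℝ) ≤ 2 * W.totient * (AP P W r).card
    · have := hcon r hr' (Finset.mem_filter.1 hr).2 hc
      have h2 : 0 ≤ δ * ((dyP P).card : ℝ) / W.totient := by positivity
      linarith
    · push Not at hc
      have h2 : 2 * δ * ((AP P W r).card : ℝ) ≤ δ * ((dyP P).card : ℝ) / W.totient := by
        rw [le_div_iff₀ hWR]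
        nlinarith
      linarith
  -- if all classes were equalities we would still have a strict inequality somewhere
  have hRne : R.Nonempty := by
    rw [← Finset.card_pos, hRcard]
    exact Nat.totient_pos.2 hW
  have hex : ∃ r ∈ R, ((dyP P).card : ℝ) ≤ 2 * W.totient * (AP P W r).card := by
    by_contra hno
    push Not at hno
    have h3 : 2 * W.totient * ((dyP P).card : ℝ) < W.totient * ((dyP P).card : ℝ) := by
      calc 2 * W.totient * ((dyP P).card : ℝ) = ∑ r ∈ R, 2 * W.totient * ((AP P W r).card : ℝ) := by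
            rw [hcard, Finset.mul_sum]
        _ < ∑ _r ∈ R, ((dyP P).card : ℝ) :=
            Finset.sum_lt_sum_of_nonempty hRne hno
        _ = W.totient * ((dyP P).card : ℝ) := by
            rw [Finset.sum_const, hRcard, nsmul_eq_mul]
    nlinarith
  obtain ⟨r₀, hr₀, hc₀⟩ := hex
  have hstrict : 2 * δ * ((AP P W r₀).card : ℝ) <
      ∑ q ∈ AP P W r₀, e q + δ * ((dyP P).card : ℝ) / W.totient := by
    have := hcon r₀ (Finset.mem_range.1 (Finset.mem_filter.1 hr₀).1) (Finset.mem_filter.1 hr₀).2 hc₀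
    have h2 : 0 < δ * ((dyP P).card : ℝ) / W.totient := by positivity
    linarith
  have h4 : ∑ r ∈ R, 2 * δ * ((AP P W r).card : ℝ) <
      ∑ r ∈ R, (∑ q ∈ AP P W r, e q + δ * ((dyP P).card : ℝ) / W.totient) :=
    Finset.sum_lt_sum key ⟨r₀, hr₀, hstrict⟩
  rw [← Finset.mul_sum, ← hcard, Finset.sum_add_distrib, ← hsum, Finset.sum_const,
    hRcard, nsmul_eq_mul] at h4
  have h5 : (W.totient : ℝ) * (δ * ((dyP P).card : ℝ) / W.totient) = δ * ((dyP P).card : ℝ) := by
    field_simp
  rw [h5] at h4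
  linarith

/-- The chosen class has at least `c (W / (φ(W) log P)) (P / W)` elements. -/
theorem class_big : ∃ c : ℝ, 0 < c ∧ ∀ (W : ℕ), 0 < W → ∀ P : ℕ, W ≤ P → 3 ≤ P → ∀ a : ℝ,
    ((dyP P).card : ℝ) ≤ 2 * W.totient * a →
      c * ((W : ℝ) / (W.totient * Real.log P)) * ((P / W : ℕ) : ℝ) ≤ a := by
  obtain ⟨c₀, hc₀, hcheb⟩ := MRB.cheb_dyadic
  refine ⟨c₀ / 2, by positivity, fun W hW P hWP hP a ha => ?_⟩
  have hWR : (0 : ℝ) < W.totient := by exact_mod_cast Nat.totient_pos.2 hW
  have hPR : (3 : ℝ) ≤ P := by exact_mod_cast hP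
  have hl : 0 < Real.log P := Real.log_pos (by linarith)
  have h1 := (hcheb P (by omega)).trans ha
  have h2 : (W : ℝ) * ((P / W : ℕ) : ℝ) ≤ P := by
    exact_mod_cast Nat.mul_div_le P W
  have h3 : c₀ * (W * ((P / W : ℕ) : ℝ)) / Real.log P ≤ 2 * W.totient * a := by
    refine le_trans ?_ h1
    gcongr
  calc c₀ / 2 * ((W : ℝ) / (W.totient * Real.log P)) * ((P / W : ℕ) : ℝ)
      = (c₀ * (W * ((P / W : ℕ) : ℝ)) / Real.log P) / (2 * W.totient) := by
        field_simp
    _ ≤ (2 * W.totient * a) / (2 * W.totient) := by gcongr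
    _ = a := by field_simp

end UGB
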