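import Pool.Agent.Helper50.UGU.Cls
import Pool.Agent.Helper50.UGU.GcsU
import Pool.Agent.Helper72.UGB.Cubes

/-!
# UGU-7: prime cubes with constants independent of the modulus

Here `N = P / W` and `α = W / (φ(W) log P)`. The upper bound for one class, the second moment and the shared vertices are hypotheses
(their constants do not depend on `W`).
-/

set_option autoImplicit false

namespace UGB

open Finset MRP

theorem alU_id (C₀ Ch δ al x : ℝ) (d M k : ℕ) (hk : k + 1 = 2 * M) :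
    (2 * C₀ * Ch) * δ * (al ^ M * x * x ^ d) ^ 2 =
      (2 * δ * (C₀ * al * x)) * (Ch * al ^ k * x ^ (2 * d + 1)) := by
  have h1 : (al ^ M) ^ 2 = al ^ k * al := by
    rw [← pow_mul, ← pow_succ, hk, mul_comm]
  calc (2 * C₀ * Ch) * δ * (al ^ M * x * x ^ d) ^ 2
      = (2 * C₀ * Ch) * δ * ((al ^ M) ^ 2 * (x * x ^ (2 * d + 1))) := by ring
    _ = (2 * δ * (C₀ * al * x)) * (Ch * al ^ k * x ^ (2 * d + 1)) := by rw [h1]; ring

theorem cubesU_of (d : ℕ)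
    (hup : ∃ C : ℝ, 0 < C ∧ ∀ W : ℕ, 0 < W → ∃ P₀ : ℕ, ∀ P : ℕ, P₀ ≤ P → ∀ r : ℕ, W.Coprime r →
      ((AP P W r).card : ℝ) ≤ C * ((W : ℝ) / (W.totient * Real.log P)) * ((P / W : ℕ) : ℝ))
    (hsec : ∃ C : ℝ, 0 < C ∧ ∀ W : ℕ, 0 < W → ∃ P₀ : ℕ, ∀ P : ℕ, P₀ ≤ P → ∀ r : ℕ, W.Coprime r →
      ∑ b ∈ bx d (P / W), ((cub (AP P W r) W b).card : ℝ) ^ 2 ≤
        C * ((W : ℝ) / (W.totient * Real.log P)) ^ (2 ^ (d + 1)) * ((P / W : ℕ) : ℝ) ^ (d + 2))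
    (hsh : ∃ C : ℝ, 0 < C ∧ ∀ W : ℕ, 0 < W → ∃ P₀ : ℕ, ∀ P : ℕ, P₀ ≤ P → ∀ r : ℕ, W.Coprime r →
      ∀ s : Finset (Fin d), ∑ t ∈ AP P W r, (((bx d (P / W)).filter
        (fun b => ∃ p ∈ cub (AP P W r) W b, p + off W b s = t)).card : ℝ) ^ 2 ≤
        C * ((W : ℝ) / (W.totient * Real.log P)) ^ (2 ^ (d + 1) - 1) *
          ((P / W : ℕ) : ℝ) ^ (2 * d + 1)) :
    ∃ c C : ℝ, 0 < c ∧ 0 < C ∧ ∀ W : ℕ, 0 < W → ∃ P₀ : ℕ, ∀ P : ℕ, P₀ ≤ P →
    ∀ e : ℕ → ℝ, (∀ q, 0 ≤ e q) → (∀ q, e q ≤ 1) → ∀ δ : ℝ, 0 < δ →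
      ∑ q ∈ dyP P, e q ≤ δ * (dyP P).card →
        ∃ r < W, ∃ B ⊆ bx d (P / W), c * ((P / W : ℕ) : ℝ) ^ d ≤ (B.card : ℝ) ∧
          ∀ b ∈ B, ∃ p : ℕ, (∀ s : Finset (Fin d), p + off W b s ∈ AP P W r) ∧
            ∑ s : Finset (Fin d), e (p + off W b s) ≤ C * √δ := by
  obtain ⟨c₅, hc₅, hbig⟩ := class_big
  obtain ⟨C₀, hC₀, hup⟩ := hup
  obtain ⟨cg, Cg, hcg, hCg, hgcs⟩ := gcsU d
  obtain ⟨Cs, hCs, hsec⟩ := hsec
  obtain ⟨Ch, hCh, hsh⟩ := hsh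
  set M : ℕ := 2 ^ d with hM
  set c' : ℝ := cg * c₅ ^ M with hc'
  have hc'pos : 0 < c' := by positivity
  set c₁ : ℝ := c' / 2 with hc₁
  have hc₁pos : 0 < c₁ := by positivity
  set C₂ : ℝ := 2 ^ d * √(2 * C₀ * Ch) with hC₂
  have hC₂pos : 0 < C₂ := by positivity
  refine ⟨c₁ ^ 2 / (8 * Cs), 16 * Cs * C₂ / c₁ ^ 3, by positivity, by positivity, fun W hW => ?_⟩
  have hWR : (0 : ℝ) < W := by exact_mod_cast hW
  obtain ⟨P₁, hup⟩ := hup W hW
  obtain ⟨P₂, hsec⟩ := hsec W hW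
  obtain ⟨P₃, hsh⟩ := hsh W hW
  obtain ⟨P₄, hlog⟩ := log_pow_le M (c' / (4 * W * Cg)) (by positivity)
  refine ⟨P₁ + P₂ + P₃ + P₄ + W + 3, ?_⟩
  intro P hP e he0 he1 δ hδ hsum
  have hP3 : 3 ≤ P := by omega
  have hPR : (3 : ℝ) ≤ P := by exact_mod_cast hP3
  have hPpos : (0 : ℝ) < P := by linarith
  have hl : 0 < Real.log P := Real.log_pos (by linarith)
  have hPW : W ≤ P := by omega
  have hphi : (0 : ℝ) < W.totient := by exact_mod_cast Nat.totient_pos.2 hW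
  have hphiW : (W.totient : ℝ) ≤ W := by exact_mod_cast Nat.totient_le W
  set N : ℕ := P / W with hN
  have hN1 : 1 ≤ N := (Nat.one_le_div_iff hW).2 hPW
  have hNR : (1 : ℝ) ≤ N := by exact_mod_cast hN1
  have hNpos : (0 : ℝ) < N := by linarith
  have hP2WN : (P : ℝ) ≤ 2 * W * N := by
    have h1 : P < W * (N + 1) := by
      have := Nat.lt_div_mul_add hW (a := P)
      rw [← hN] at this
      calc P < N * W + W := this
        _ = W * (N + 1) := by ring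
    have h2 : W * (N + 1) ≤ 2 * W * N := by nlinarith
    exact_mod_cast (h1.le.trans h2)
  set S : Finset (Fin d → ℕ) := bx d N with hS
  have hScard : (S.card : ℝ) = (N : ℝ) ^ d := by
    rw [hS, card_bx]; push_cast; ring
  set al : ℝ := (W : ℝ) / (W.totient * Real.log P) with hal
  have halpos : 0 < al := by positivity
  have hal1 : 1 / Real.log P ≤ al := by
    rw [hal, div_le_div_iff₀ hl (by positivity)]
    nlinarith
  obtain ⟨r, hr, hrc, hn2, hA⟩ := exists_classU W hW P hPW e he0 δ hδ hsum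
  refine ⟨r, hr, ?_⟩
  have hup := hup P (by omega) r hrc
  have hsec := hsec P (by omega) r hrc
  have hsh := hsh P (by omega) r hrc
  set A : Finset ℕ := AP P W r with hAdef
  set a : ℝ := (A.card : ℝ) with ha
  have ha0 : 0 ≤ a := Nat.cast_nonneg _
  have hAdy : A ⊆ dyP P := Finset.filter_subset _ _
  have ha_low : c₅ * al * N ≤ a := hbig W hW P hPW hP3 a hn2
  set q₀ : ℝ := al ^ M * N with hq₀
  have hq₀pos : 0 < q₀ := by positivity
  -- (2)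
  have h2 : c₁ * q₀ * S.card ≤ ∑ b ∈ S, ((cub A W b).card : ℝ) := by
    have hg := hgcs W hW P hPW r A (fun q hq => (Finset.mem_filter.1 (hAdy hq)).1)
      (fun q hq => (Finset.mem_filter.1 hq).2)
    have e1 : (c₅ * al * N) ^ M ≤ a ^ M := by gcongr
    have e2 : cg * (c₅ * al * N) ^ M * (N : ℝ) ^ (d + 1) ≤
        ((∑ b ∈ S, ((cub A W b).card : ℝ)) + Cg * (N : ℝ) ^ d) * (N : ℝ) ^ M := by
      refine le_trans ?_ hg
      gcongr
    have e3 : cg * (c₅ * al * N) ^ M * (N : ℝ) ^ (d + 1) =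
        (c' * (q₀ * (N : ℝ) ^ d)) * (N : ℝ) ^ M := by
      rw [hc', hq₀, mul_pow, mul_pow]
      ring
    rw [e3] at e2
    have e4 := le_of_mul_le_mul_right e2 (by positivity : (0 : ℝ) < (N : ℝ) ^ M)
    have e5 : Cg * (N : ℝ) ^ d ≤ c' / 2 * (q₀ * (N : ℝ) ^ d) := by
      have hl1 := hlog P (by omega)
      have hlM : 0 < (Real.log P) ^ M := by positivity
      have e6 : (N : ℝ) / (Real.log P) ^ M ≤ q₀ := by
        have e7 : (1 / Real.log P) ^ M ≤ al ^ M := by gcongr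
        calc (N : ℝ) / (Real.log P) ^ M = (1 / Real.log P) ^ M * N := by
              rw [div_pow, one_pow]; ring
          _ ≤ q₀ := by rw [hq₀]; gcongr
      have e8 : Cg ≤ c' / 2 * ((N : ℝ) / (Real.log P) ^ M) := by
        rw [← mul_div_assoc, le_div_iff₀ hlM]
        calc Cg * (Real.log P) ^ M ≤ Cg * (c' / (4 * W * Cg) * P) := by gcongr
          _ ≤ Cg * (c' / (4 * W * Cg) * (2 * W * N)) := by gcongr
          _ = c' / 2 * N := by field_simp; ring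
      have e9 : Cg ≤ c' / 2 * q₀ := e8.trans (by gcongr)
      calc Cg * (N : ℝ) ^ d ≤ (c' / 2 * q₀) * (N : ℝ) ^ d := by gcongr
        _ = _ := by ring
    calc c₁ * q₀ * S.card = c' * (q₀ * (N : ℝ) ^ d) - c' / 2 * (q₀ * (N : ℝ) ^ d) := by
          rw [hc₁, hScard]; ring
      _ ≤ ∑ b ∈ S, ((cub A W b).card : ℝ) := by linarith
  -- (3)
  have hM2 : 2 ^ (d + 1) = 2 * M := by rw [hM]; ring
  have h3 : ∑ b ∈ S, ((cub A W b).card : ℝ) ^ 2 ≤ Cs * q₀ ^ 2 * S.card := by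
    refine hsec.trans (le_of_eq ?_)
    rw [hM2, hq₀, hScard, mul_comm 2 M, pow_mul]
    ring
  -- (4)
  set F : (Fin d → ℕ) → ℝ := fun b => ∑ p ∈ cub A W b, ∑ s : Finset (Fin d), e (p + off W b s)
    with hF
  have hM1 : 1 ≤ M := Nat.one_le_two_pow
  have h4s : ∀ s : Finset (Fin d), ∑ b ∈ S, ∑ p ∈ cub A W b, e (p + off W b s) ≤
      √(2 * C₀ * Ch) * √δ * (q₀ * (N : ℝ) ^ d) := by
    intro s
    rw [sum_vertex]
    set R : ℕ → ℝ := fun t =>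
      ((S.filter (fun b => ∃ p ∈ cub A W b, p + off W b s = t)).card : ℝ) with hR
    have hcs : (∑ t ∈ A, e t * R t) ^ 2 ≤ (∑ t ∈ A, e t ^ 2) * ∑ t ∈ A, R t ^ 2 :=
      Finset.sum_mul_sq_le_sq_mul_sq A e R
    have he2 : ∑ t ∈ A, e t ^ 2 ≤ 2 * δ * (C₀ * al * N) := by
      calc ∑ t ∈ A, e t ^ 2 ≤ ∑ t ∈ A, e t := by
            refine Finset.sum_le_sum (fun t _ => ?_)
            have := he0 t
            have := he1 t
            nlinarith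
        _ ≤ 2 * δ * a := hA
        _ ≤ 2 * δ * (C₀ * al * N) := by gcongr
    have hR2 : ∑ t ∈ A, R t ^ 2 ≤ Ch * al ^ (2 ^ (d + 1) - 1) * (N : ℝ) ^ (2 * d + 1) := hsh s
    have hprod : (∑ t ∈ A, e t * R t) ^ 2 ≤
        (√(2 * C₀ * Ch) * √δ * (q₀ * (N : ℝ) ^ d)) ^ 2 := by
      refine hcs.trans ?_
      have e1 : (√(2 * C₀ * Ch) * √δ * (q₀ * (N : ℝ) ^ d)) ^ 2 =
          (2 * C₀ * Ch) * δ * (al ^ M * N * (N : ℝ) ^ d) ^ 2 := by
        rw [mul_pow, mul_pow, Real.sq_sqrt (by positivity), Real.sq_sqrt hδ.le]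
      rw [e1, alU_id C₀ Ch δ al N d M (2 ^ (d + 1) - 1) (by rw [hM2]; omega)]
      have hn1 : 0 ≤ ∑ t ∈ A, R t ^ 2 := Finset.sum_nonneg (fun t _ => sq_nonneg _)
      have hn2 : 0 ≤ 2 * δ * (C₀ * al * N) := by positivity
      exact mul_le_mul he2 hR2 hn1 hn2
    have hn3 : 0 ≤ √(2 * C₀ * Ch) * √δ * (q₀ * (N : ℝ) ^ d) := by positivity
    exact le_of_sq_le_sq hprod hn3
  have h4 : ∑ b ∈ S, F b ≤ C₂ * √δ * q₀ * S.card := by
    have e1 : ∑ b ∈ S, F b = ∑ s : Finset (Fin d), ∑ b ∈ S, ∑ p ∈ cub A W b,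
        e (p + off W b s) := by
      rw [Finset.sum_comm]
      refine Finset.sum_congr rfl (fun b _ => ?_)
      rw [hF, Finset.sum_comm]
    rw [e1]
    calc ∑ s : Finset (Fin d), ∑ b ∈ S, ∑ p ∈ cub A W b, e (p + off W b s) ≤
          ∑ _s : Finset (Fin d), √(2 * C₀ * Ch) * √δ * (q₀ * (N : ℝ) ^ d) :=
          Finset.sum_le_sum (fun s _ => h4s s)
      _ = 2 ^ d * (√(2 * C₀ * Ch) * √δ * (q₀ * (N : ℝ) ^ d)) := by
          rw [Finset.sum_const, nsmul_eq_mul, Finset.card_univ, Fintype.card_finset,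
            Fintype.card_fin]
          push_cast
          ring
      _ = C₂ * √δ * q₀ * S.card := by rw [hC₂, hScard]; ring
  -- (5)
  have hFn : ∀ b ∈ S, 0 ≤ F b := fun b _ =>
    Finset.sum_nonneg (fun p _ => Finset.sum_nonneg (fun s _ => he0 _))
  obtain ⟨B, hBS, hBc, hB⟩ := select S (fun b => ((cub A W b).card : ℝ)) F
    (fun b _ => Nat.cast_nonneg _) hFn q₀ c₁ Cs C₂ (√δ) hq₀pos hc₁pos hCs hC₂pos
    (Real.sqrt_pos.2 hδ) h2 h3 h4
  refine ⟨B, hBS, ?_, ?_⟩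
  · rw [← hScard]
    exact hBc
  · intro b hb
    obtain ⟨hQpos, hFb⟩ := hB b hb
    have hQne : (cub A W b).Nonempty := by
      rw [← Finset.card_pos]; exact_mod_cast hQpos
    set K : ℝ := 16 * Cs * C₂ / c₁ ^ 3 * √δ with hK
    have hle : ∑ p ∈ cub A W b, ∑ s : Finset (Fin d), e (p + off W b s) ≤
        ∑ _p ∈ cub A W b, K := by
      rw [Finset.sum_const, nsmul_eq_mul]
      calc ∑ p ∈ cub A W b, ∑ s : Finset (Fin d), e (p + off W b s) = F b := rfl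
        _ ≤ 16 * Cs * C₂ / c₁ ^ 3 * √δ * (cub A W b).card := hFb
        _ = (cub A W b).card * K := by rw [hK]; ring
    obtain ⟨p, hp, hpK⟩ := Finset.exists_le_of_sum_le hQne hle
    exact ⟨p, (Finset.mem_filter.1 hp).2, hpK⟩

end UGB
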