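import Pool.Agent.Helper50.UGU.Cubes
import Pool.Agent.Helper98.UGU.SecondU
import Pool.Agent.Helper98.UGU.SharedU

/-!
# UGU-7: prime cubes with constants independent of the modulus, from the tuples bound
-/

set_option autoImplicit false

namespace UGB

open Finset MRP

theorem card_AP_le_of (H : ∃ C : ℝ, 0 < C ∧ ∀ W : ℕ, 0 < W → ∃ P₀ : ℕ, ∀ P : ℕ, P₀ ≤ P →
      ∀ r : ℕ, r.Coprime W → ∀ 𝒯 : Finset (Finset (Fin 0)), 𝒯.card = 1 →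
        ∑ v ∈ bx 0 (P / W), ((((Icc 1 (2 * P)).filter
          (fun n => n % W = r ∧ ∀ T ∈ 𝒯, (n + off W v T).Prime)).card : ℕ) : ℝ) ≤
          C * ((W : ℝ) / (Nat.totient W * Real.log P)) ^ 1 * ((P / W : ℕ) : ℝ) ^ (0 + 1)) :
    ∃ C : ℝ, 0 < C ∧ ∀ W : ℕ, 0 < W → ∃ P₀ : ℕ, ∀ P : ℕ, P₀ ≤ P → ∀ r : ℕ, W.Coprime r →
      ((AP P W r).card : ℝ) ≤ C * ((W : ℝ) / (W.totient * Real.log P)) * ((P / W : ℕ) : ℝ) := by
  obtain ⟨C, hC, h⟩ := H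
  refine ⟨C, hC, fun W hW => ?_⟩
  obtain ⟨P₀, h⟩ := h W hW
  refine ⟨P₀, fun P hP r hr => ?_⟩
  have h1 := h P hP r hr.symm {∅} (by simp)
  have h2 : ((AP P W r).card : ℝ) ≤ ∑ v ∈ bx 0 (P / W), ((((Icc 1 (2 * P)).filter
      (fun n => n % W = r ∧ ∀ T ∈ ({∅} : Finset (Finset (Fin 0))),
        (n + off W v T).Prime)).card : ℕ) : ℝ) := by
    have hv : (fun i => Fin.elim0 i : Fin 0 → ℕ) ∈ bx 0 (P / W) := mem_bx.2 (fun i => i.elim0)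
    refine le_trans ?_ (Finset.single_le_sum (f := fun v : Fin 0 → ℕ =>
      ((((Icc 1 (2 * P)).filter
      (fun n => n % W = r ∧ ∀ T ∈ ({∅} : Finset (Finset (Fin 0))),
        (n + off W v T).Prime)).card : ℕ) : ℝ))
      (fun v _ => by positivity) hv)
    have : (AP P W r) ⊆ ((Icc 1 (2 * P)).filter
      (fun n => n % W = r ∧ ∀ T ∈ ({∅} : Finset (Finset (Fin 0))),
        (n + off W (fun i => Fin.elim0 i : Fin 0 → ℕ) T).Prime)) := by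
      intro p hp
      have hp0 := Finset.mem_filter.1 hp
      have hp' := Finset.mem_filter.1 hp0.1
      have hp1 := Finset.mem_Ioc.1 hp'.1
      refine Finset.mem_filter.2 ⟨Finset.mem_Icc.2 ⟨by omega, hp1.2⟩, hp0.2, ?_⟩
      intro T hT
      rw [Finset.mem_singleton.1 hT]
      simpa [off] using hp'.2
    exact_mod_cast Finset.card_le_card this
  have h3 := h2.trans h1
  rw [pow_one, zero_add, pow_one] at h3
  exact h3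

/-- The prime cubes, from the tuples bound `H`. -/
theorem cubesU_of_tuples (H : ∀ D m : ℕ, ∃ C : ℝ, 0 < C ∧ ∀ W : ℕ, 0 < W → ∃ P₀ : ℕ, ∀ P : ℕ, P₀ ≤ P →
      ∀ r : ℕ, r.Coprime W → ∀ 𝒯 : Finset (Finset (Fin D)), 𝒯.card = m →
        ∑ v ∈ bx D (P / W), ((((Icc 1 (2 * P)).filter
          (fun n => n % W = r ∧ ∀ T ∈ 𝒯, (n + off W v T).Prime)).card : ℕ) : ℝ) ≤
          C * ((W : ℝ) / (Nat.totient W * Real.log P)) ^ m * ((P / W : ℕ) : ℝ) ^ (D + 1)) (d : ℕ) :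
    ∃ c C : ℝ, 0 < c ∧ 0 < C ∧ ∀ W : ℕ, 0 < W → ∃ P₀ : ℕ, ∀ P : ℕ, P₀ ≤ P →
    ∀ e : ℕ → ℝ, (∀ q, 0 ≤ e q) → (∀ q, e q ≤ 1) → ∀ δ : ℝ, 0 < δ →
      ∑ q ∈ dyP P, e q ≤ δ * (dyP P).card →
        ∃ r < W, ∃ B ⊆ bx d (P / W), c * ((P / W : ℕ) : ℝ) ^ d ≤ (B.card : ℝ) ∧
          ∀ b ∈ B, ∃ p : ℕ, (∀ s : Finset (Fin d), p + off W b s ∈ AP P W r) ∧
            ∑ s : Finset (Fin d), e (p + off W b s) ≤ C * √δ := by
  refine cubesU_of d (card_AP_le_of (H 0 1)) ?_ ?_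
  · obtain ⟨C, hC, h⟩ := UGU.secondU_of H d
    refine ⟨C, hC, fun W hW => ?_⟩
    obtain ⟨P₀, h⟩ := h W hW
    exact ⟨P₀, fun P hP r hr => h P hP r hr.symm⟩
  · obtain ⟨C, hC, h⟩ := UGU.sharedU_of H d
    refine ⟨C, hC, fun W hW => ?_⟩
    obtain ⟨P₀, h⟩ := h W hW
    exact ⟨P₀, fun P hP r hr s => h P hP r hr.symm s⟩

end UGB
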